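import Mathlib
import Pool.Agent.Q217.MZ.Depth

/-!
# MP_cbe134_nt: the depth filtration and relations of bounded shape

A pattern is a list of letters `(a, b)`; its index at `n` has the arguments `a n + b`. Consider integral linear relations of
bounded height between the multiple zeta values of finitely many admissible patterns of the same weight `S_1 n + S_2` and of
depth at most `r`, for large `n`, that is, relations between the values of depth `r` modulo values of smaller depth, of
bounded shape and height.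

1. The part of depth `r` of such a relation is a combination of shuffles `u ⧢ v` of constant patterns `u` (initial segments
of the patterns of depth `r`) and patterns `v` whose first letter grows, and for each `v` the coefficients of the `u ⧢ v`
form a relation between the values `ζ(u)` of depth `r - |v|` modulo values of smaller depth. So the relation comes from
relations of bounded weight in the depth graded algebra.

2. If the patterns of depth `r` have at most one constant letter in front, all coefficients in depth `r` are zero.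
-/

set_option autoImplicit false

namespace Pool.Agent.Results.MP_cbe134_nt.LeadingParts

/-- `trunc [s_1, ..., s_r] m` is the sum of `∏ k_i ^ (-s_i)` over `m > k_1 > ... > k_r ≥ 1` -/
noncomputable def trunc : List ℕ → ℕ → ℝ
  | [], _ => 1
  | s :: l, m => ∑ j ∈ Finset.Ico 1 m, trunc l j / (j : ℝ) ^ s

/-- the multiple zeta value `ζ(s_1, ..., s_r)`, `s_1` belongs to the largest variable -/
noncomputable def mzv : List ℕ → ℝ
  | [] => 1
  | s :: l => ∑' k : ℕ, trunc l (k + 1) / ((k + 1 : ℕ) : ℝ) ^ s

/-- admissible indices: all entries are at least one, the first one is at least two; the empty index is admissible -/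
def AdmissibleIndex (l : List ℕ) : Prop := (∀ a ∈ l, 1 ≤ a) ∧ ∀ a t, l = a :: t → 2 ≤ a

/-- the span of the multiple zeta values of weight `k` and of depth smaller than `d` -/
noncomputable def LowerDepth (d k : ℕ) : Submodule ℚ ℝ :=
  Submodule.span ℚ {x | ∃ l : List ℕ, AdmissibleIndex l ∧ l.sum = k ∧ l.length < d ∧ x = mzv l}

/-- admissible patterns: the letter `(0, 0)` does not occur, and a constant first letter is at least two -/
def AdmissiblePattern (w : List (ℕ × ℕ)) : Prop :=
  (∀ x ∈ w, x ≠ (0, 0)) ∧ ∀ x l, w = x :: l → x.1 = 0 → 2 ≤ x.2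

/-- the pattern is empty or its first letter grows -/
def Growing (w : List (ℕ × ℕ)) : Prop := ∀ x l, w = x :: l → 1 ≤ x.1

/-- the index with the arguments `a n + b` -/
def index (n : ℕ) (w : List (ℕ × ℕ)) : List ℕ := w.map fun x => x.1 * n + x.2

/-- the constant letters in front of the first growing letter -/
def constantPrefix : List (ℕ × ℕ) → List (ℕ × ℕ)
  | [] => []
  | x :: l => if x.1 = 0 then x :: constantPrefix l else []

/-- the shuffles of two patterns, as a list (with multiplicities) -/
def shuffles : List (ℕ × ℕ) → List (ℕ × ℕ) → List (List (ℕ × ℕ))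
  | [], v => [v]
  | x :: u, [] => [x :: u]
  | x :: u, y :: v => (shuffles u (y :: v)).map (x :: ·) ++ (shuffles (x :: u) v).map (y :: ·)
termination_by u v => u.length + v.length

lemma trunc_eq : ∀ l m, trunc l m = Pool.Agent.TH507.WD.hr l m := by
  intro l
  induction l with
  | nil => intro m; rw [trunc, Pool.Agent.TH507.WD.hr]
  | cons s l ih =>
    intro m
    rw [trunc, Pool.Agent.TH507.WD.hr]
    exact Finset.sum_congr rfl fun j _ => by rw [ih]

lemma mzv_eq : mzv = Pool.Agent.TH507.WD.mz := by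
  funext l
  cases l with
  | nil => rw [mzv, Pool.Agent.TH507.WD.mz]
  | cons s l =>
    rw [mzv, Pool.Agent.TH507.WD.mz]
    exact tsum_congr fun k => by rw [trunc_eq]

lemma shuffles_eq : ∀ u v, shuffles u v = Pool.Agent.Q217.MZ.shf u v := by
  intro u v
  induction u, v using Pool.Agent.Q217.MZ.shf.induct with
  | case1 v => rw [shuffles, Pool.Agent.Q217.MZ.shf]
  | case2 x u => rw [shuffles, Pool.Agent.Q217.MZ.shf]
  | case3 x u y v ih1 ih2 => rw [shuffles, Pool.Agent.Q217.MZ.shf, ih1, ih2]

lemma prefix_eq : ∀ w, constantPrefix w = Pool.Agent.Q217.MZ.cp w := by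
  intro w
  induction w with
  | nil => rfl
  | cons x l ih =>
    rw [constantPrefix]
    by_cases h : x.1 = 0
    · rw [if_pos h, Pool.Agent.Q217.MZ.cp_zero l h, ih]
    · rw [if_neg h, Pool.Agent.Q217.MZ.cp_pos l h]

lemma adm_of {w : List (ℕ × ℕ)} (h : AdmissiblePattern w) : Pool.Agent.Q217.MZ.AdmW w := by
  refine ⟨fun x hx hx0 => ?_, h.2⟩
  have h1 := h.1 x hx
  by_contra hcon
  exact h1 (Prod.ext hx0 (by simp only; omega))

lemma of_adm {w : List (ℕ × ℕ)} (h : Pool.Agent.Q217.MZ.AdmW w) : AdmissiblePattern w := by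
  refine ⟨fun x hx hx0 => ?_, h.2⟩
  have h1 := h.1 x hx (by rw [hx0])
  rw [hx0] at h1
  simp at h1

lemma ld_eq (d k : ℕ) : LowerDepth d k = Pool.Agent.Q217.MZ.LD d k := by
  rw [LowerDepth, Pool.Agent.Q217.MZ.LD, mzv_eq]
  rfl

lemma growing_of {w : List (ℕ × ℕ)} (h : Pool.Agent.TH507.WG.HP w) : Growing w := by
  rintro x l rfl
  exact h

/-- **Theorem.** Let `Λ` be a finite set of admissible patterns of the weight `S_1 n + S_2` and of depth at most `r`. There is
`N` such that for all `H`, all `n ≥ n0(H)` and all integers `c_w`, `w ∈ Λ`, of absolute value at most `H` with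
`|∑ c_w ζ(w(n))| ≤ N ^ (-n)`:

1. there are integers `ρ(u, v)`, for a finite set `Q` of pairs of a constant admissible pattern `u`, an initial segment of a
pattern of depth `r` in `Λ`, and an admissible growing pattern `v`, of total weight `S_1 n + S_2` and total depth `r`, such
that the part of depth `r` of `∑ c_w w` is that of `∑ ρ(u, v) (u ⧢ v)`, and for every `v` the number `∑_u ρ(u, v) ζ(u)`, a
combination of values of depth `r - |v|`, is in the span of the values of the same weight and of smaller depth;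

2. if the patterns of depth `r` in `Λ` have at most one constant letter in front, then `c_w = 0` for all of them. -/
theorem result (r : ℕ) (S : ℕ × ℕ) (Λ : Finset (List (ℕ × ℕ))) (hΛ : ∀ w ∈ Λ, AdmissiblePattern w)
    (hr : ∀ w ∈ Λ, w.length ≤ r) (hS : ∀ w ∈ Λ, w.sum = S) :
    ∃ N : ℕ, 1 ≤ N ∧ ∀ H : ℕ, ∃ n0 : ℕ, ∀ n : ℕ, n0 ≤ n → ∀ c : List (ℕ × ℕ) → ℤ, (∀ w ∈ Λ, |c w| ≤ H) →
      |∑ w ∈ Λ, (c w : ℝ) * mzv (index n w)| ≤ ((N : ℝ) ^ n)⁻¹ →
      (∃ (Q : Finset (List (ℕ × ℕ) × List (ℕ × ℕ))) (ρ : List (ℕ × ℕ) × List (ℕ × ℕ) → ℤ),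
        (∀ p ∈ Q, (∀ x ∈ p.1, x.1 = 0) ∧ AdmissiblePattern p.1 ∧ Growing p.2 ∧ AdmissiblePattern p.2 ∧
          p.1.sum + p.2.sum = S ∧ p.1.length + p.2.length = r ∧
          ∃ w ∈ Λ, w.length = r ∧ p.1 <+: constantPrefix w) ∧
        (∀ w ∈ Λ, w.length = r → c w = ∑ p ∈ Q, ρ p * ((shuffles p.1 p.2).count w : ℤ)) ∧
        ∀ v, ∑ p ∈ Q with p.2 = v, (ρ p : ℝ) * mzv (p.1.map Prod.snd) ∈ LowerDepth (r - v.length) (S.2 - v.sum.2)) ∧
      ((∀ w ∈ Λ, w.length = r → (constantPrefix w).length ≤ 1) → ∀ w ∈ Λ, w.length = r → c w = 0) := by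
  obtain ⟨N, hN, h⟩ := Pool.Agent.Q217.MZ.depth_main r S Λ (fun w hw => adm_of (hΛ w hw)) hr hS
  refine ⟨N, hN, fun H => ?_⟩
  obtain ⟨n0, h⟩ := h H
  refine ⟨n0, fun n hn c hc hsmall => ?_⟩
  obtain ⟨Q, ρ, h1, h2, h3⟩ := h n hn c hc (by
    rw [← mzv_eq]
    exact hsmall)
  refine ⟨⟨Q, ρ, fun p hp => ?_, fun w hw hwr => ?_, fun v => ?_⟩, fun hone => ?_⟩
  · obtain ⟨a1, a2, a3, a4, a5, a6, w, hw, a7, a8⟩ := h1 p hp
    refine ⟨a1, of_adm a2, growing_of a3, of_adm (Pool.Agent.Q217.MZ.AdmW_of_HP a3 a4), a5, a6, w, hw, a7, ?_⟩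
    rw [prefix_eq]
    exact a8
  · rw [h2 w hw hwr]
    refine Finset.sum_congr rfl fun p _ => ?_
    rw [shuffles_eq, List.count]
    congr 2
    refine List.countP_congr fun a _ => ?_
    simp
  · rw [ld_eq, mzv_eq]
    exact h3 v
  · exact Pool.Agent.Q217.MZ.depth_one r S Λ (fun w hw hwr => by
      rw [← prefix_eq]
      exact hone w hw hwr) c Q ρ h1 h2 h3

end Pool.Agent.Results.MP_cbe134_nt.LeadingParts
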