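import Pool.Agent.Q127.HB.Depth

/-!
# The Broadhurst-Kreimer conjecture: propagation in weight and depth

`Fil r k` is the `ℚ`-span of the multiple zeta values of weight `k` and depth at most `r`, `Zs k` the span of all multiple zeta
values of weight `k`, `realDim k r` the dimension of `gr_r Z_k = Fil r k / Fil (r - 1) k`, and `IsBK g` says that
`∑ g k r X^k Y^r = (1 + E(X) Y) / (1 - O(X) Y + S(X) Y² - S(X) Y⁴)`. So the conjecture (Q1) is `IsBK realDim`.

We use the known facts on motivic multiple zeta values (`Motivic'`; Goncharov, Deligne, Brown): they form an integral domain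
`H`; the span `F r n` of those of weight `n` and depth at most `r` is finite dimensional; `F r m F s n ⊆ F (r + s) (m + n)`;
`F r n = F n n` for `r ≥ n`, and this space has dimension `d n` (`1, 0, 1, 1, 1, 2, 2, 3, ...`); and there is a homomorphism
`per : H → ℝ` of `ℚ`-algebras with `per (F r n) = Fil r n`. Let `m(r, k) = dim F r k` and let `motDim k r` be the dimension of
`gr_r` of the motivic multiple zeta values of weight `k`. So `dim Fil r k ≤ m(r, k)`.

Theorem.

1. If `dim Fil r k < m(r, k)` for one pair, then `dim Fil (r + s) (k + n) ≤ m(r + s, k + n) - m(s, n)` for all `s`, `n`. In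
   particular one pair with inequality implies inequality for all pairs with depth bound `> r` and weight `≥ k + 2`.
2. If, for one `r`, the space `Fil r k` has the motivic dimension for infinitely many weights `k`, then `Fil s k` has the motivic
   dimension for all `s < r` and all weights `k`.
3. `dim Fil r k = m(r, k)` for all `r`, `k` if and only if this holds along one sequence of pairs for which `r` and `k` tend to
   infinity.
4. The Broadhurst-Kreimer conjecture holds if and only if it holds for the motivic multiple zeta values and there are pairs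
   `(r, k)` with `r` and `k` arbitrarily large and `dim Fil r k = m(r, k)`.
5. It holds if and only if it holds for the motivic multiple zeta values and `dim Z_k = d k` for infinitely many `k`.
6. If it holds for the motivic multiple zeta values, but not for the multiple zeta values, then there are `r₀`, `k₀` such that
   `dim Fil r k < m(r, k)` for all `r > r₀` and all `k ≥ k₀ + 2`.
-/

set_option autoImplicit false

open Module Filter

namespace Pool.Agent.Results.MP_cbe134_nt.WeightAndDepthLaws

open Pool.Agent.Q127.BK Pool.Agent.Q263.ZO Pool.Agent.H447R2.MZ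

theorem result (M : Motivic') :
    -- 1
    (∀ r k, finrank ℚ (Fil r k) < finrank ℚ (M.F r k) →
      (∀ s n, finrank ℚ (Fil (r + s) (k + n)) + finrank ℚ (M.F s n) ≤ finrank ℚ (M.F (r + s) (k + n))) ∧
      ∀ s n, r < s → k + 2 ≤ n → finrank ℚ (Fil s n) < finrank ℚ (M.F s n)) ∧
    -- 2
    (∀ r, (∃ᶠ k in atTop, finrank ℚ (Fil r k) = finrank ℚ (M.F r k)) →
      ∀ s < r, ∀ k, finrank ℚ (Fil s k) = finrank ℚ (M.F s k)) ∧
    -- 3
    ((∀ r k, finrank ℚ (Fil r k) = finrank ℚ (M.F r k)) ↔
      ∀ a, ∃ r, a ≤ r ∧ ∃ k, a ≤ k ∧ finrank ℚ (Fil r k) = finrank ℚ (M.F r k)) ∧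
    -- 4
    (IsBK realDim ↔ IsBK M.motDim ∧
      ∀ a, ∃ r, a ≤ r ∧ ∃ k, a ≤ k ∧ finrank ℚ (Fil r k) = finrank ℚ (M.F r k)) ∧
    -- 5
    (IsBK realDim ↔ IsBK M.motDim ∧ ∃ᶠ k in atTop, finrank ℚ (Zs k) = d k) ∧
    -- 6
    (IsBK M.motDim → ¬ IsBK realDim →
      ∃ r₀ k₀, ∀ r k, r₀ < r → k₀ + 2 ≤ k → finrank ℚ (Fil r k) < finrank ℚ (M.F r k)) := by
  refine ⟨fun r k h => ⟨fun s n => M.step (fun h1 => h.ne h1) s n, fun s n hs hn =>
      lt_of_le_of_ne (M.le s n) (M.spoil (fun h1 => h.ne h1) hs hn)⟩,
    fun r h => M.depth r h, ⟨fun h a => ⟨a, le_rfl, a, le_rfl, h a a⟩, M.all⟩, M.iff_all, M.iff_dims, ?_⟩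
  intro h1 h2
  obtain ⟨r₀, k₀, _, h3⟩ := M.fails h1 h2
  exact ⟨r₀, k₀, fun r k hr hk => lt_of_le_of_ne (M.le r k) (h3 r k hr hk)⟩

end Pool.Agent.Results.MP_cbe134_nt.WeightAndDepthLaws
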